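import Mathlib
import Pool.Agent.Lib_helper21.Plichko.P4

set_option autoImplicit false

namespace Pool.Agent.Results.MP_28dc43_an.NoPlichkoSuperspace

open Cardinal Set Pool.Agent.Lib_helper21.Plichko

universe u v

section Definitions

variable {X : Type u} [NormedAddCommGroup X] [NormedSpace ℝ X]

/-- `{e α; φ α}` is an M-basis of `X`: a biorthogonal system such that the linear span of the
`e α` is dense in `X` and the `φ α` separate the points of `X`. -/
structure IsMBasis {Γ : Type u} (e : Γ → X) (φ : Γ → (X →L[ℝ] ℝ)) : Prop where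
  self : ∀ α, φ α (e α) = 1
  off : ∀ α β, α ≠ β → φ α (e β) = 0
  dense_span : Dense ((Submodule.span ℝ (Set.range e) : Submodule ℝ X) : Set X)
  separates : ∀ x y : X, (∀ α, φ α x = φ α y) → x = y

/-- A set `N` of functionals on `X` is norming if there is `c > 0` such that
`sup {|ψ(x)| : ψ ∈ N, ‖ψ‖ ≤ 1} ≥ c ‖x‖` for all `x`. -/
def IsNorming (N : Set (X →L[ℝ] ℝ)) : Prop :=
  ∃ c : ℝ, 0 < c ∧ ∀ x : X, c * ‖x‖ ≤ sSup {t : ℝ | ∃ ψ ∈ N, ‖ψ‖ ≤ 1 ∧ t = |ψ x|}

/-- The functionals which are nonzero at only countably many of the vectors `e α`. -/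
def countablySupported {Γ : Type u} (e : Γ → X) : Set (X →L[ℝ] ℝ) :=
  {ψ | Set.Countable {α : Γ | ψ (e α) ≠ 0}}

end Definitions

/-- `X` is a Plichko space: it admits a countably norming M-basis. -/
def IsPlichko (X : Type u) [NormedAddCommGroup X] [NormedSpace ℝ X] : Prop :=
  ∃ (Γ : Type u) (e : Γ → X) (φ : Γ → (X →L[ℝ] ℝ)),
    IsMBasis e φ ∧ IsNorming (countablySupported e)

/-- `Z` embeds in `X`: there is a linear isomorphism of `Z` onto a closed subspace of `X`. -/
def Embeds (Z : Type v) [NormedAddCommGroup Z] [NormedSpace ℝ Z]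
    (X : Type u) [NormedAddCommGroup X] [NormedSpace ℝ X] : Prop :=
  ∃ Y : Submodule ℝ X, IsClosed (Y : Set X) ∧ Nonempty (Z ≃L[ℝ] Y)

/-! ### Auxiliary facts -/

/-- the index type -/
abbrev WW : Type v := (ℵ_ 2 : Cardinal.{v}).ord.ToType

lemma aleph_two_eq : (ℵ_ 2 : Cardinal.{v}) = Order.succ ℵ₁ := by
  have : (2 : Ordinal.{v}) = Order.succ 1 := by
    rw [← Ordinal.succ_one]
  rw [this, Cardinal.aleph_succ]

lemma W1 (w : WW.{v}) : #(Iio w) ≤ ℵ₁ := by
  have h := Cardinal.mk_Iio_toType_ord_lt w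
  exact Order.lt_succ_iff.1 (h.trans_eq aleph_two_eq)

lemma W2 (A : Set WW.{v}) (hA : #A ≤ ℵ₁) : ∃ w, ∀ a ∈ A, a < w := by
  by_contra hcon
  push Not at hcon
  have h1 : #WW ≤ ℵ₁ := by
    have h2 : (Set.univ : Set WW) ⊆ ⋃ a ∈ A, Iic a := by
      intro w _
      obtain ⟨a, ha, hwa⟩ := hcon w
      exact mem_biUnion ha hwa
    rw [← Cardinal.mk_univ]
    refine (Cardinal.mk_le_mk_of_subset h2).trans ((Cardinal.mk_biUnion_le _ _).trans ?_)
    calc #A * ⨆ v : A, #(Iic v.1) ≤ ℵ₁ * ℵ₁ := by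
          gcongr
          apply ciSup_le'
          intro v
          have : Iic v.1 = insert v.1 (Iio v.1) := by
            ext x; simp [le_iff_eq_or_lt]
          rw [this]
          refine (Cardinal.mk_insert_le).trans ?_
          calc #(Iio v.1) + 1 ≤ ℵ₁ + ℵ₁ := add_le_add (W1 _)
                (Cardinal.one_le_aleph0.trans (Cardinal.aleph0_le_aleph 1))
            _ = ℵ₁ := Cardinal.add_eq_self (Cardinal.aleph0_le_aleph 1)
      _ = ℵ₁ := Cardinal.mul_eq_self (Cardinal.aleph0_le_aleph 1)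
  rw [Cardinal.mk_ord_toType, aleph_two_eq] at h1
  exact absurd h1 (not_le.2 (Order.lt_succ _))

/-- the ordinal of an index -/
noncomputable def o (w : WW.{v}) : Ordinal.{v} := ((Ordinal.ToType.mk.symm w : Set.Iio _) : Ordinal.{v})

lemma o_lt (w : WW.{v}) : o w < (ℵ_ 2 : Cardinal.{v}).ord := (Ordinal.ToType.mk.symm w).2

lemma o_mono {v w : WW.{v}} (h : v < w) : o v < o w := by
  have := (Ordinal.ToType.mk (o := (ℵ_ 2 : Cardinal.{v}).ord)).symm.lt_iff_lt.2 h
  exact this

section Points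

variable {η : Ordinal.{v}} (hη : Ordinal.omega 2 ≤ η)

include hη in
lemma o_le (w : WW.{v}) : o w ≤ η := by
  have h := o_lt w
  rw [Cardinal.ord_aleph] at h
  exact h.le.trans hη

/-- the point of the space -/
noncomputable def pt (w : WW.{v}) : Set.Icc (0 : Ordinal.{v}) η := ⟨o w, zero_le, o_le hη w⟩

lemma clopen (w : WW.{v}) : IsClopen (Set.Iic (pt hη w)) := by
  refine ⟨isClosed_Iic, ?_⟩
  have h : Set.Iic (pt hη w) = (fun x : Set.Icc (0 : Ordinal.{v}) η => (x : Ordinal.{v})) ⁻¹'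
      (Set.Iio (Order.succ (o w))) := by
    ext x
    simp only [mem_Iic, mem_preimage, mem_Iio, Order.lt_succ_iff]
    rfl
  rw [h]
  exact isOpen_Iio.preimage continuous_subtype_val

/-- the indicator function of `[0, w]` -/
noncomputable def ind (w : WW.{v}) : C(Set.Icc (0 : Ordinal.{v}) η, ℝ) where
  toFun x := (Set.Iic (pt hη w)).indicator (fun _ => (1 : ℝ)) x
  continuous_toFun := Continuous.indicator (fun a ha => by
      rw [(clopen hη w).frontier_eq] at ha
      exact absurd ha (Set.notMem_empty a)) continuous_const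

lemma ind_apply (w : WW.{v}) (x : Set.Icc (0 : Ordinal.{v}) η) :
    ind hη w x = if x ≤ pt hη w then 1 else 0 := by
  show (Set.Iic (pt hη w)).indicator (fun _ => (1 : ℝ)) x = _
  simp only [Set.indicator, mem_Iic]

end Points

/-- the abstract version -/
theorem aux {η : Ordinal.{v}} (hη : Ordinal.omega 2 ≤ η) (X : Type u) [NormedAddCommGroup X]
    [NormedSpace ℝ X] [CompleteSpace X] {M : Set X}
    (hM : Dense ((Submodule.span ℝ M : Submodule ℝ X) : Set X)) {c : ℝ} (hc : 0 < c)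
    (hf : ∀ x : X, ∃ f : X →L[ℝ] ℝ,
          Set.Countable {m ∈ M | f m ≠ 0} ∧ ‖f‖ ≤ 1 ∧ c * ‖x‖ ≤ |f x|)
    (T : C(Set.Icc (0 : Ordinal.{v}) η, ℝ) →L[ℝ] X) {d : ℝ} (hd : 0 < d)
    (hT : ∀ g, d * ‖g‖ ≤ ‖T g‖) : False := by
  choose F hFc hF1 hFn using hf
  let g : WW.{v} → C(Set.Icc (0 : Ordinal.{v}) η, ℝ) := ind hη
  have hg : ∀ w x, g w x = if x ≤ pt hη w then 1 else 0 := ind_apply hη
  have hpt : ∀ v w : WW, v < w → pt hη v < pt hη w := fun v w h => o_mono h
  refine main_abstract (M := M) (F := F) hM hFc hF1 hc hFn W1 W2 (fun w => T (g w)) ‖T‖ d hd ?_ ?_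
  · intro n δ γ hδγ hγδ
    have hδm : StrictMono δ := strictMono_nat_of_lt_succ fun i => (hδγ i).trans (hγδ i)
    rw [show ∑ i ∈ Finset.range n, (T (g (δ i)) - T (g (γ i))) =
      T (∑ i ∈ Finset.range n, (g (δ i) - g (γ i))) by rw [map_sum]; simp only [map_sub]]
    have h1 : ‖∑ i ∈ Finset.range n, (g (δ i) - g (γ i))‖ ≤ 1 := by
      rw [ContinuousMap.norm_le _ zero_le_one]
      intro x
      have h2 : (∑ i ∈ Finset.range n, (g (δ i) - g (γ i))) x =
          - (((Finset.range n).filter (fun i => pt hη (δ i) < x ∧ x ≤ pt hη (γ i))).card : ℝ) := by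
        rw [Finset.card_filter]
        push_cast
        rw [← Finset.sum_neg_distrib]
        rw [ContinuousMap.sum_apply]
        apply Finset.sum_congr rfl
        intro i _
        rw [ContinuousMap.sub_apply, hg, hg]
        have h3 := hpt _ _ (hδγ i)
        by_cases h4 : x ≤ pt hη (δ i)
        · simp [h4, h4.trans h3.le, not_lt.2 h4]
        · by_cases h5 : x ≤ pt hη (γ i)
          · simp [h4, h5, not_le.1 h4]
          · simp [h4, h5]
      rw [h2, norm_neg]
      have h3 : ((Finset.range n).filter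
          (fun i => pt hη (δ i) < x ∧ x ≤ pt hη (γ i))).card ≤ 1 := by
        rw [Finset.card_le_one]
        intro i hi j hj
        rw [Finset.mem_filter] at hi hj
        by_contra hij
        rcases lt_or_gt_of_ne hij with hlt | hlt
        · have h6 : pt hη (γ i) < pt hη (δ j) := by
            refine (hpt _ _ (hγδ i)).trans_le ?_
            rcases (Nat.succ_le_of_lt hlt).eq_or_lt with h | h
            · rw [← h]
            · exact (hpt _ _ (hδm h)).le
          exact absurd ((hi.2.2.trans_lt h6).trans hj.2.1) (lt_irrefl _)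
        · have h6 : pt hη (γ j) < pt hη (δ i) := by
            refine (hpt _ _ (hγδ j)).trans_le ?_
            rcases (Nat.succ_le_of_lt hlt).eq_or_lt with h | h
            · rw [← h]
            · exact (hpt _ _ (hδm h)).le
          exact absurd ((hj.2.2.trans_lt h6).trans hi.2.1) (lt_irrefl _)
      simpa using h3
    calc ‖T (∑ i ∈ Finset.range n, (g (δ i) - g (γ i)))‖
        ≤ ‖T‖ * ‖∑ i ∈ Finset.range n, (g (δ i) - g (γ i))‖ := T.le_opNorm _
      _ ≤ ‖T‖ * 1 := by gcongr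
      _ = ‖T‖ := mul_one _
  · intro n δ hδ
    rw [show ∑ i ∈ Finset.range n, (T (g (δ (n + i))) - T (g (δ i))) =
      T (∑ i ∈ Finset.range n, (g (δ (n + i)) - g (δ i))) by rw [map_sum]; simp only [map_sub]]
    refine le_trans ?_ (hT _)
    gcongr
    have h2 : (∑ i ∈ Finset.range n, (g (δ (n + i)) - g (δ i))) (pt hη (δ n)) = n := by
      rw [ContinuousMap.sum_apply]
      rw [Finset.sum_congr rfl (g := fun _ => (1 : ℝ))]
      · simp
      intro i hi
      rw [Finset.mem_range] at hi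
      rw [ContinuousMap.sub_apply, hg, hg]
      have h3 : pt hη (δ n) ≤ pt hη (δ (n + i)) := by
        rcases Nat.eq_zero_or_pos i with h | h
        · subst h; rfl
        · exact (hpt _ _ (hδ (by omega))).le
      have h4 : ¬ pt hη (δ n) ≤ pt hη (δ i) := not_le.2 (hpt _ _ (hδ hi))
      simp [h3, h4]
    calc (n : ℝ) = ‖(∑ i ∈ Finset.range n, (g (δ (n + i)) - g (δ i))) (pt hη (δ n))‖ := by
          rw [h2]; simp
      _ ≤ _ := ContinuousMap.norm_coe_le_norm _ _

/-- For every ordinal `η ≥ ω₂`, the space `C([0, η])` of continuous real functions on the compact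
space `[0, η]` does not embed into any Plichko Banach space. -/
theorem result (η : Ordinal.{v}) (hη : Ordinal.omega 2 ≤ η) (X : Type u) [NormedAddCommGroup X]
    [NormedSpace ℝ X] [CompleteSpace X] (hX : IsPlichko X) :
    ¬ Embeds C(Set.Icc (0 : Ordinal.{v}) η, ℝ) X := by
  rintro ⟨Y, _, ⟨T⟩⟩
  obtain ⟨Γ, e, φ, hb, c, hc, hN⟩ := hX
  have hinj : Function.Injective e := by
    intro α β hαβ
    by_contra hne
    have h1 := hb.self α
    rw [hαβ, hb.off α β hne] at h1
    exact zero_ne_one h1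
  refine aux hη X (M := Set.range e) hb.dense_span (c := c / 2) (by positivity) ?_
    (Y.subtypeL.comp T.toContinuousLinearMap)
    (d := (‖T.symm.toContinuousLinearMap‖ + 1)⁻¹) (by positivity) ?_
  · intro x
    by_cases hx : x = 0
    · subst hx
      refine ⟨0, ?_, by simp, by simp⟩
      simp
    have hxpos : 0 < ‖x‖ := norm_pos_iff.2 hx
    have h1 : c / 2 * ‖x‖ <
        sSup {t : ℝ | ∃ ψ ∈ countablySupported e, ‖ψ‖ ≤ 1 ∧ t = |ψ x|} := by
      refine lt_of_lt_of_le ?_ (hN x)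
      nlinarith
    have hne : {t : ℝ | ∃ ψ ∈ countablySupported e, ‖ψ‖ ≤ 1 ∧ t = |ψ x|}.Nonempty := by
      refine ⟨0, 0, ?_, by simp, by simp⟩
      show Set.Countable {α : Γ | (0 : X →L[ℝ] ℝ) (e α) ≠ 0}
      simp
    obtain ⟨t, ⟨ψ, hψ, hψ1, rfl⟩, ht⟩ := exists_lt_of_lt_csSup hne h1
    refine ⟨ψ, ?_, hψ1, ht.le⟩
    refine (hψ.image e).mono ?_
    rintro m ⟨⟨α, rfl⟩, hm⟩
    exact ⟨α, hm, rfl⟩
  · intro g
    have h1 : ‖g‖ ≤ ‖T.symm.toContinuousLinearMap‖ * ‖T g‖ := by
      have h2 := T.symm.toContinuousLinearMap.le_opNorm (T g)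
      have h3 : T.symm.toContinuousLinearMap (T g) = g := T.symm_apply_apply g
      rw [h3] at h2
      exact h2
    have h4 : ‖(Y.subtypeL.comp T.toContinuousLinearMap) g‖ = ‖T g‖ := rfl
    rw [h4, inv_mul_le_iff₀ (by positivity)]
    nlinarith [norm_nonneg (T g)]

end Pool.Agent.Results.MP_28dc43_an.NoPlichkoSuperspace
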